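import Mathlib

namespace Pool.Agent.Helper58.LV

variable {E : Type*} [Field E]

/-- iterated commutator of the `m`-th power of `d` with multiplication by `y` -/
def T (d : E → E) (y : E) : ℕ → ℕ → E → E
  | 0, m, f => d^[m] f
  | n + 1, m, f => T d y n m (y * f) - y * T d y n m f

theorem iter_add (d : Derivation ℤ E E) (m : ℕ) (f g : E) :
    (⇑d)^[m] (f + g) = (⇑d)^[m] f + (⇑d)^[m] g := by
  induction m generalizing f g with
  | zero => rfl
  | succ m ih => simp only [Function.iterate_succ_apply, map_add, ih]

theorem T_add (d : Derivation ℤ E E) (y : E) (n m : ℕ) (f g : E) :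
    T d y n m (f + g) = T d y n m f + T d y n m g := by
  induction n generalizing f g with
  | zero => exact iter_add d m f g
  | succ n ih => simp only [T, mul_add, ih]; ring

theorem T_succ (d : Derivation ℤ E E) (y : E) (n m : ℕ) (f : E) :
    T d y (n + 1) (m + 1) f = (n + 1) * T d y n m (d y * f) + T d y (n + 1) m (d f) := by
  have h0 : ∀ f, T d y 0 (m + 1) f = T d y 0 m (d f) := fun f => by
    simp only [T, Function.iterate_succ_apply]
  induction n generalizing f with
  | zero =>
    show T d y 0 (m+1) (y * f) - y * T d y 0 (m+1) f = _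
    rw [h0, h0]
    have : d (y * f) = d y * f + y * d f := by
      rw [Derivation.leibniz]; simp only [smul_eq_mul]; ring
    rw [this, T_add]
    show _ = _ + (T d y 0 m (y * d f) - y * T d y 0 m (d f))
    push_cast; ring
  | succ n ih =>
    show T d y (n+1) (m+1) (y * f) - y * T d y (n+1) (m+1) f = _
    rw [ih, ih]
    have : d (y * f) = d y * f + y * d f := by
      rw [Derivation.leibniz]; simp only [smul_eq_mul]; ring
    rw [this, T_add]
    have e1 : T d y (n + 1) m (d y * f) = T d y n m (y * (d y * f)) - y * T d y n m (d y * f) := rfl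
    have e2 : T d y (n + 1 + 1) m (d f) = T d y (n+1) m (y * d f) - y * T d y (n+1) m (d f) := rfl
    rw [e2]
    have e3 : d y * (y * f) = y * (d y * f) := by ring
    rw [e3]
    push_cast
    linear_combination (-(n:E) - 1) * e1

theorem T_zero (d : Derivation ℤ E E) (y : E) (n : ℕ) (f : E) : T d y (n + 1) 0 f = 0 := by
  induction n generalizing f with
  | zero => show y * f - y * f = 0; ring
  | succ n ih =>
    show T d y (n+1) 0 (y * f) - y * T d y (n+1) 0 f = 0
    rw [ih, ih]; ring

theorem T_gt (d : Derivation ℤ E E) (y : E) (m n : ℕ) (h : m < n) (f : E) : T d y n m f = 0 := by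
  induction m generalizing n f with
  | zero =>
    obtain ⟨k, rfl⟩ : ∃ k, n = k + 1 := ⟨n - 1, by omega⟩
    exact T_zero d y k f
  | succ m ih =>
    obtain ⟨k, rfl⟩ : ∃ k, n = k + 1 := ⟨n - 1, by omega⟩
    rw [T_succ, ih k (by omega), ih (k+1) (by omega)]; ring

theorem T_diag (d : Derivation ℤ E E) (y : E) (n : ℕ) (f : E) :
    T d y n n f = (n.factorial : E) * (d y) ^ n * f := by
  induction n generalizing f with
  | zero => simp [T]
  | succ n ih =>
    rw [T_succ, ih, T_gt d y n (n+1) (by omega), Nat.factorial_succ]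
    push_cast; ring

theorem iter_mem (d : Derivation ℤ E E) (A : Subring E) (hA : ∀ x ∈ A, d x ∈ A) (m : ℕ) (x : E)
    (hx : x ∈ A) : (⇑d)^[m] x ∈ A := by
  induction m generalizing x with
  | zero => exact hx
  | succ m ih => rw [Function.iterate_succ_apply]; exact ih _ (hA x hx)

theorem T_mem (d : Derivation ℤ E E) (A : Subring E) (hA : ∀ x ∈ A, d x ∈ A) (y a : E)
    (ha : ∀ i, a * y ^ i ∈ A) (n m l j : ℕ) : a * y ^ l * T d y n m (a * y ^ j) ∈ A := by
  induction n generalizing l j with
  | zero => exact A.mul_mem (ha l) (iter_mem d A hA m _ (ha j))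
  | succ n ih =>
    have h1 := ih l (j+1)
    have h2 := ih (l+1) j
    have : a * y ^ l * T d y (n+1) m (a * y ^ j) =
        a * y ^ l * T d y n m (a * y ^ (j+1)) - a * y ^ (l+1) * T d y n m (a * y ^ j) := by
      show a * y ^ l * (T d y n m (y * (a * y ^ j)) - y * T d y n m (a * y ^ j)) = _
      rw [show y * (a * y ^ j) = a * y ^ (j+1) by ring]; ring
    rw [this]
    exact A.sub_mem h1 h2

theorem den_pow (A : Subring E) (y a : E) (ha : a ∈ A) (hay : a * y ∈ A) (hy : IsIntegral A y) :
    ∃ k : ℕ, ∀ i, a ^ k * y ^ i ∈ A := by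
  obtain ⟨p, hp, hpy⟩ := hy
  refine ⟨p.natDegree, fun i => ?_⟩
  induction i using Nat.strong_induction_on with
  | _ i ih =>
    by_cases hi : i ≤ p.natDegree
    · have : a ^ p.natDegree * y ^ i = a ^ (p.natDegree - i) * (a * y) ^ i := by
        rw [mul_pow, ← mul_assoc, ← pow_add, Nat.sub_add_cancel hi]
      rw [this]
      exact A.mul_mem (A.pow_mem ha _) (A.pow_mem hay _)
    · push Not at hi
      have hev : y ^ p.natDegree = - ∑ j ∈ Finset.range p.natDegree,
          ((p.coeff j : A) : E) * y ^ j := by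
        rw [Polynomial.eval₂_eq_sum_range, Finset.sum_range_succ] at hpy
        rw [hp.coeff_natDegree, map_one, one_mul] at hpy
        rw [eq_neg_iff_add_eq_zero, add_comm]
        exact hpy
      have : a ^ p.natDegree * y ^ i = - ∑ j ∈ Finset.range p.natDegree,
          ((p.coeff j : A) : E) * (a ^ p.natDegree * y ^ (i - p.natDegree + j)) := by
        have h1 : y ^ i = y ^ (i - p.natDegree) * y ^ p.natDegree := by
          rw [← pow_add, Nat.sub_add_cancel hi.le]
        rw [h1, hev, mul_neg, mul_neg, Finset.mul_sum, Finset.mul_sum]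
        congr 1
        refine Finset.sum_congr rfl fun j _ => ?_
        rw [pow_add]; ring
      rw [this]
      refine A.neg_mem (A.sum_mem fun j hj => A.mul_mem (p.coeff j).2 (ih _ ?_))
      have := Finset.mem_range.1 hj
      omega

/-- Seidenberg: the integral closure of a Noetherian differential domain containing the rationals
in its field of fractions is a differential ring. -/
theorem seidenberg (d : Derivation ℤ E E) (A : Subring E) [IsNoetherianRing A]
    (hA : ∀ x ∈ A, d x ∈ A) (hQ : ∀ n : ℕ, ((n.factorial : E))⁻¹ ∈ A) [CharZero E]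
    (y a : E) (ha0 : a ≠ 0) (ha : a ∈ A) (hay : a * y ∈ A) (hy : IsIntegral A y) :
    IsIntegral A (d y) := by
  obtain ⟨k, hk⟩ := den_pow A y a ha hay hy
  set b := a ^ k with hb
  have hb0 : b ≠ 0 := pow_ne_zero _ ha0
  have key : ∀ n, b ^ 2 * (d y) ^ n ∈ A := by
    intro n
    have h1 := T_mem d A hA y b hk n n 0 0
    rw [T_diag] at h1
    have h2 := A.mul_mem (hQ n) h1
    have hf : (n.factorial : E) ≠ 0 := by exact_mod_cast n.factorial_ne_zero
    have : ((n.factorial : E))⁻¹ * (b * y ^ 0 * ((n.factorial : E) * d y ^ n * (b * y ^ 0))) =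
        b ^ 2 * (d y) ^ n := by
      field_simp
      try ring
    rwa [this] at h2
  let S : Subalgebra A E := Algebra.adjoin A {d y}
  have hle : Subalgebra.toSubmodule S ≤ Submodule.span A {(b ^ 2)⁻¹} := by
    intro x hx
    have hx' : x ∈ Algebra.adjoin A {d y} := hx
    rw [Algebra.adjoin_singleton_eq_range_aeval] at hx'
    obtain ⟨p, rfl⟩ := hx'
    have : (Polynomial.aeval (d y)) p = ∑ j ∈ Finset.range (p.natDegree + 1),
        (p.coeff j) • (d y) ^ j := Polynomial.aeval_eq_sum_range _
    show (Polynomial.aeval (d y)) p ∈ _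
    rw [this]
    refine Submodule.sum_mem _ fun j _ => Submodule.smul_mem _ _ ?_
    rw [Submodule.mem_span_singleton]
    refine ⟨⟨b ^ 2 * (d y) ^ j, key j⟩, ?_⟩
    show (b ^ 2 * (d y) ^ j) * (b ^ 2)⁻¹ = _
    field_simp
  have : IsNoetherian A (Submodule.span A {(b ^ 2)⁻¹} : Submodule A E) :=
    isNoetherian_of_fg_of_noetherian _ (Submodule.fg_span_singleton _)
  have hn : IsNoetherian A (Subalgebra.toSubmodule S) := isNoetherian_of_le hle
  exact isIntegral_of_submodule_noetherian S hn (d y) (Algebra.subset_adjoin rfl)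

end Pool.Agent.Helper58.LV
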